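import Pool.Agent.H69.BP.Ari

/-!
# The hardness of a template is not witnessed by relations of bounded arity
-/

set_option autoImplicit false

namespace Pool.Agent.Results.MP_6ab439_lc.UnboundedArity

open Pool.Agent.H69.BP

theorem result (m : ℕ) :
    ∃ (σ τ : Sig) (V : Type) (_ : Countable V) (A : Str σ V) (B : Str τ V),
      Homogeneous B ∧ FinBounded B ∧ IsReduct A B ∧ ModelCompleteCore A ∧ PPConstructs A K3 ∧
      ∀ (ρ : Sig) (C : Str ρ V) (p : Fin m → V),
        (∀ s, Nat.card (ρ.Ar s) ≤ m ∧ PPDefPar A p (C s)) → ¬ PPConstructs C K3 := by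
  obtain ⟨c, hc⟩ := exists_ext (m + m + 1) (Fin 3)
  exact ⟨_, _, ℕ, inferInstance, blowStr K3 c, blowStr K3n c, blow_homogeneous K3n_homogeneous hc,
    blow_finBounded (finBounded_of_crit K3n_crit) hc, blow_isReduct K3_isReduct c,
    blow_core K3_core hc (by omega), ppK3_up hc K3_ppK3,
    fun ρ C p hC => small_arity K3 hc (by omega) C p hC⟩

end Pool.Agent.Results.MP_6ab439_lc.UnboundedArity
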